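import Pool.Agent.V8H82.PF.Tr3

/-!
# The length of a restricted positive factorization of the boundary twist is bounded

This answers Q1: `N(g)` is finite for every `g`.

The surface is given by a finite cell decomposition `S : Surface D` (a combinatorial map whose
elements `D` are the oriented edges, together with the leg, an arc from the base vertex to the
boundary); the curves are simple closed edge paths, which pairwise are disjoint or meet in exactly
one vertex and cross there. Any finite family of pairwise non-isotopic curves in which every two
curves can be isotoped to meet in at most one point is of this form: take the geodesics of a
hyperbolic metric and a cell decomposition that has their union in its 1-skeleton; repetitions in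
the factorization are repetitions in the list `w`. A mapping class of the surface relative to its
boundary is determined by its action on the fundamental group based on the boundary. The leg meets
no curve, so this is the action on the edge loops at the base vertex, and the positive twist along
the boundary acts by `p ↦ zeta⁻¹ p zeta`.
-/

set_option autoImplicit false

namespace Pool.Agent.Results.MP_294da1_gt.FiniteLength

open Pool.Agent.V8H82.Surf

/-- **For every genus `g` there is a number `N` such that every factorization of the boundary
twist of a surface of genus `g` with one boundary component into positive Dehn twists about curves
that pairwise are equal, disjoint or cross exactly once has at most `N` factors.** -/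
theorem result (g : ℕ) : ∃ N : ℕ, ∀ (D : Type) [Finite D] (S : Surface D), S.HasGenus g →
    ∀ (ι : Type) (c : ι → List D), (∀ i, S.IsCurve (c i)) →
    (∀ i j, i ≠ j → S.AreDisjoint (c i) (c j) ∨ S.CrossOnce (c i) (c j)) →
    ∀ w : List ι, S.IsFactorization c w → w.length ≤ N :=
  Pool.Agent.V8H82.PF.surf_bound g

end Pool.Agent.Results.MP_294da1_gt.FiniteLength
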